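import Pool.Agent.LC5.Stmts

/-!
# Squad LC5, row BOO: the strict configurations form an open set
-/

set_option autoImplicit false

open Topology

namespace Pool.Agent.LC5.H27

open Pool.Agent.LCK Pool.Agent.LC5

theorem continuous_dt : Continuous (dt : (Fin 6 → E3) → ℝ) := by
  unfold dt det3
  fun_prop

/-- the inequalities -/
def U : Set ((ℝ × ℝ × ℝ) × (ℝ × ℝ × ℝ)) :=
  {p | 0 < p.1.1 ∧ 0 < p.1.2.1 ∧ p.1.1 + p.1.2.1 + p.1.2.2 < 1 ∧ 0 < p.2.2.1 ∧ 0 < p.2.2.2 ∧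
    p.2.2.1 * p.1.1 < p.2.1 * p.1.2.1 ∧ p.1.2.2 < 0 ∧
    p.1.2.1 < p.1.2.1 * (p.2.1 + p.2.2.2) + p.2.2.1 * (1 - p.1.2.2 - p.1.1)}

theorem isOpen_U : IsOpen U := by
  unfold U
  refine IsOpen.and ?_ (IsOpen.and ?_ (IsOpen.and ?_ (IsOpen.and ?_ (IsOpen.and ?_
    (IsOpen.and ?_ (IsOpen.and ?_ ?_))))))
  all_goals exact isOpen_lt (by fun_prop) (by fun_prop)

theorem boo (hC : CRDStmt) : BOOStmt := by
  unfold BOOStmt
  rw [isOpen_iff_mem_nhds]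
  intro v hv
  obtain ⟨hd, a, b, c, x, y, z, h5, h0, hu⟩ := hv
  have c5 : ContinuousAt (fun w : Fin 6 → E3 => crd w (w 5)) v := by
    have h1 := (hC v hd).2.2 (v 5)
    exact ContinuousAt.comp (g := fun q : (Fin 6 → E3) × E3 => crd q.1 q.2)
      (f := fun w : Fin 6 → E3 => (w, w 5)) h1 (by fun_prop)
  have c0 : ContinuousAt (fun w : Fin 6 → E3 => crd w (w 0)) v := by
    have h1 := (hC v hd).2.2 (v 0)
    exact ContinuousAt.comp (g := fun q : (Fin 6 → E3) × E3 => crd q.1 q.2)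
      (f := fun w : Fin 6 → E3 => (w, w 0)) h1 (by fun_prop)
  have e5 : crd v (v 5) = (a, b, c) := by
    rw [h5]
    exact (hC v hd).2.1 _
  have e0 : crd v (v 0) = (x, y, z) := by
    rw [h0]
    exact (hC v hd).2.1 _
  have hU : (crd v (v 5), crd v (v 0)) ∈ U := by
    rw [e5, e0]
    exact hu
  have m1 : ∀ᶠ w in 𝓝 v, dt w ≠ 0 := continuous_dt.continuousAt.eventually_ne hd
  have m2 : ∀ᶠ w in 𝓝 v, (crd w (w 5), crd w (w 0)) ∈ U :=
    (c5.prodMk c0).eventually (isOpen_U.mem_nhds hU)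
  filter_upwards [m1, m2] with w w1 w2
  exact ⟨w1, _, _, _, _, _, _, ((hC w w1).1 (w 5)).symm, ((hC w w1).1 (w 0)).symm, w2⟩

end Pool.Agent.LC5.H27
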